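import Mathlib
import Pool.Agent.Zk44.GP.Jets

/-!
# Counting the points of a finite set which is separated by few functions
-/

set_option autoImplicit false

namespace Pool.Agent.Zk44.DT

open MvPolynomial
open Pool.Agent.R351
open Pool.Agent.Zk44.GE.Ode
open Pool.Agent.Zk44.GP (jets_InP')
open Pool.Agent.Zk44.SC (vv vv_even vv_odd coord_joint last_var InP.ren)

section Sep

variable {κ C : Type} [Field κ] [Field C] [Algebra κ C]

/-- The points of `B` are separated by the `m` quotients of linear forms, which have values in `A`. -/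
def Sep {N m : ℕ} (α₀ : Fin N → κ) (α : Fin m → Fin N → κ) (A : Finset κ)
    (B : Finset (Fin N → κ)) : Prop :=
  (∀ b ∈ B, ∑ i, α₀ i * b i ≠ 0) ∧
  (∀ b ∈ B, ∀ j, (∑ i, α j i * b i) / (∑ i, α₀ i * b i) ∈ A) ∧
  ∀ b ∈ B, ∀ b' ∈ B, (∀ j, (∑ i, α j i * b i) / (∑ i, α₀ i * b i) =
    (∑ i, α j i * b' i) / (∑ i, α₀ i * b' i)) → b = b'

theorem Sep.mono {N m : ℕ} {α₀ : Fin N → κ} {α : Fin m → Fin N → κ} {A : Finset κ}
    {B B' : Finset (Fin N → κ)} (h : Sep α₀ α A B) (hB : B' ⊆ B) : Sep α₀ α A B' :=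
  ⟨fun b hb => h.1 b (hB hb), fun b hb => h.2.1 b (hB hb),
    fun b hb b' hb' => h.2.2 b (hB hb) b' (hB hb')⟩

/-- All functions are polynomials of small degree in the coordinates. -/
theorem Sep.all {N m : ℕ} {α₀ : Fin N → κ} {α : Fin m → Fin N → κ} {A : Finset κ}
    {B : Finset (Fin N → κ)} (h : Sep α₀ α A B) {v : ℕ → B → C} {n : ℕ}
    (hv : ∀ k : Fin N, InP C v n 1 (fun b : B => algebraMap κ C (b.1 k))) (f : B → C) :
    InP C v n (2 * (m * A.card)) f := by
  classical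
  have hlin : ∀ γ : Fin N → κ, InP C v n 1 (fun b : B => algebraMap κ C (∑ i, γ i * b.1 i)) := by
    intro γ
    have e1 : (fun b : B => algebraMap κ C (∑ i, γ i * b.1 i)) =
        ∑ i, (algebraMap κ C (γ i)) • (fun b : B => algebraMap κ C (b.1 i)) := by
      funext b
      rw [Finset.sum_apply, map_sum]
      refine Finset.sum_congr rfl fun i _ => ?_
      rw [map_mul]
      rfl
    rw [e1]
    exact InP.sum _ _ fun i _ => (hv i).smul _
  set u : B → C := fun b => algebraMap κ C (∑ i, α₀ i * b.1 i) with hu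
  have hu0 : ∀ b, u b ≠ 0 := by
    intro b
    rw [hu]
    exact fun h0 => h.1 b.1 b.2 ((map_eq_zero _).1 h0)
  let r : ℕ → B → C := fun k b => if hk : k < m then
    algebraMap κ C ((∑ i, α ⟨k, hk⟩ i * b.1 i) / (∑ i, α₀ i * b.1 i)) else 0
  have hr : ∀ (k : Fin m) (b : B), r k b =
      algebraMap κ C ((∑ i, α k i * b.1 i) / (∑ i, α₀ i * b.1 i)) := by
    intro k b
    exact dif_pos k.2
  have hall : ∀ f : B → C, InP C r m (m * A.card) f := by
    intro f
    have h3 := lagrange r (A.image (algebraMap κ C)) (by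
      intro k hk b
      have h4 := hr ⟨k, hk⟩ b
      show r k b ∈ _
      rw [h4]
      exact Finset.mem_image_of_mem _ (h.2.1 b.1 b.2 _)) (by
      intro b b' hbb
      apply Subtype.ext
      refine h.2.2 b.1 b.2 b'.1 b'.2 fun k => ?_
      have h4 := hbb k k.2
      rw [hr, hr] at h4
      exact (algebraMap κ C).injective h4) f
    exact h3.mono le_rfl (Nat.mul_le_mul_left _ Finset.card_image_le)
  have hsub : ∀ k < m, InP C v n 1 (u ^ 1 * r k) := by
    intro k hk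
    have e1 : u ^ 1 * r k = fun b : B => algebraMap κ C (∑ i, α ⟨k, hk⟩ i * b.1 i) := by
      funext b
      rw [pow_one, Pi.mul_apply]
      have h4 := hr ⟨k, hk⟩ b
      have h5 : r k b = algebraMap κ C ((∑ i, α ⟨k, hk⟩ i * b.1 i) / (∑ i, α₀ i * b.1 i)) := h4
      rw [h5, hu]
      beta_reduce
      rw [← map_mul, mul_div_cancel₀ _ (h.1 b.1 b.2)]
    rw [e1]
    exact hlin _
  have h3 := InP.subst (hlin α₀) hsub (hall (fun b => (u b ^ (1 * (m * A.card)))⁻¹ * f b))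
  have h4 : u ^ (1 * (m * A.card)) * (fun b => (u b ^ (1 * (m * A.card)))⁻¹ * f b) = f := by
    funext b
    rw [Pi.mul_apply, Pi.pow_apply, ← mul_assoc, mul_inv_cancel₀ (pow_ne_zero _ (hu0 b)), one_mul]
  have h5 : (fun b : B => algebraMap κ C (∑ i, α₀ i * b.1 i)) ^ (1 * (m * A.card)) *
      (fun b => (u b ^ (1 * (m * A.card)))⁻¹ * f b) = f := h4
  rw [h5] at h3
  exact h3.mono le_rfl (by omega)

end Sep

section Single

/-- **The points at which the separant does not vanish.** -/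
theorem step_gen (n d : ℕ) : ∃ c : ℕ, ∀ (N T : ℕ) (κ C : Type) [Field κ] [Field C] [Algebra κ C]
    (Δ : Derivation κ C C), ∀ lam : Fin N → C, ∀ (z : C) (B : Finset (Fin N → κ)),
    (∀ f : B → C, InP C (vj Δ lam z B) N T f) →
    ∀ F : MvPolynomial ℕ C, F ∈ supported C {i : ℕ | i < n + 1} →
    F.totalDegree ≤ d → (∀ b ∈ B, ev Δ (cb lam z b) F = 0) →
    (∀ b ∈ B, ev Δ (cb lam z b) (pderiv n F) ≠ 0) →
    B.card ≤ (c * ((N + 1) ^ 2 * T) + 1) ^ (n + 1) := by
  refine ⟨2 * (5 * d + 2), fun N T κ C _ _ _ Δ lam z B hall F hF hd h0 hS => ?_⟩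
  classical
  obtain ⟨h1, h2⟩ := jets_InP' Δ lam z B hF hd h0 N
  set v := vj Δ lam z B with hv
  set S := aeval v (pderiv n F) with hSdef
  have hS0 : ∀ b : B, S b ≠ 0 := by
    intro b
    rw [hSdef, hv, aeval_vj]
    exact hS b.1 b.2
  have hall' : ∀ f : B → C, InP C v (n + 1)
      ((2 * N + 1) * ((5 * d + 2) * (N + 1)) * T) f := by
    intro f
    have h3 := InP.subst h1 h2 (hall (fun b => (S b ^ (2 * N * T))⁻¹ * f b))
    have h4 : S ^ (2 * N * T) * (fun b => (S b ^ (2 * N * T))⁻¹ * f b) = f := by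
      funext b
      rw [Pi.mul_apply, Pi.pow_apply, ← mul_assoc, mul_inv_cancel₀ (pow_ne_zero _ (hS0 b)), one_mul]
    rw [h4] at h3
    exact h3
  have h3 := card_le_of_InP hall'
  rw [Fintype.card_coe] at h3
  refine h3.trans (Nat.pow_le_pow_left (Nat.add_le_add_right ?_ 1) _)
  calc (2 * N + 1) * ((5 * d + 2) * (N + 1)) * T
      ≤ (2 * (N + 1)) * ((5 * d + 2) * (N + 1)) * T := by
        gcongr
        omega
    _ = _ := by ring

/-- **The number of points of a separated set at which a combination satisfies a differential equation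
of order less than `n`.** -/
theorem count_gen (n : ℕ) : ∀ d : ℕ, ∃ c : ℕ, ∀ (N T : ℕ), 1 ≤ T → ∀ (κ C : Type) [Field κ] [Field C]
    [CharZero C] [Algebra κ C] (Δ : Derivation κ C C),
    ∀ lam : Fin N → C, ∀ (z : C) (B : Finset (Fin N → κ)),
    (∀ B' ⊆ B, ∀ f : B' → C, InP C (vj Δ lam z B') N T f) → ∀ F : MvPolynomial ℕ C, F ≠ 0 →
    F ∈ supported C {i : ℕ | i < n} → F.totalDegree ≤ d → (∀ b ∈ B, ev Δ (cb lam z b) F = 0) →
    B.card ≤ c * ((N + 1) ^ 2 * T) ^ n := by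
  intro d
  induction d with
  | zero =>
    refine ⟨0, fun N T hT κ C _ _ _ _ Δ lam z B hall F hF0 hF hd h0 => ?_⟩
    have h1 : F = MvPolynomial.C (coeff 0 F) := totalDegree_eq_zero_iff_eq_C.1 (Nat.le_zero.1 hd)
    rw [Nat.zero_mul, Nat.le_zero, Finset.card_eq_zero, Finset.eq_empty_iff_forall_notMem]
    intro b hb
    have h2 := h0 b hb
    rw [h1] at h2
    unfold ev at h2
    rw [eval_C] at h2
    apply hF0
    rw [h1, h2, map_zero]
  | succ d ih =>
    choose f hf using fun i : ℕ => step_gen i (d + 1)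
    obtain ⟨c, ih⟩ := ih
    refine ⟨c + ∑ i ∈ Finset.range n, (f i + 1) ^ n,
      fun N T hT κ C _ _ _ _ Δ lam z B hall F hF0 hF hd h0 => ?_⟩
    classical
    set M : ℕ := (N + 1) ^ 2 * T with hM
    have hA1 : 1 ≤ M := Nat.mul_pos (pow_pos (Nat.succ_pos N) 2) hT
    rcases B.eq_empty_or_nonempty with rfl | ⟨b₀, hb₀⟩
    · simp
    rcases last_var hF with ⟨a, rfl⟩ | ⟨i, hin, hiF, hFi⟩
    · exfalso
      have h4 := h0 b₀ hb₀
      unfold ev at h4
      rw [eval_C] at h4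
      apply hF0
      rw [h4, map_zero]
    set S := pderiv i F with hS
    have hSd : S.totalDegree ≤ d := by
      have h5 := pderiv_totalDegree i F hiF
      rw [← hS] at h5
      omega
    set B₁ := B.filter (fun b => ev Δ (cb lam z b) S = 0) with hB₁
    set B₂ := B.filter (fun b => ¬ ev Δ (cb lam z b) S = 0) with hB₂
    have hsum : B₁.card + B₂.card = B.card := Finset.card_filter_add_card_filter_not _
    have h1 : B₁.card ≤ c * M ^ n :=
      ih N T hT κ C Δ lam z B₁ (fun B' hB' => hall B' (hB'.trans (Finset.filter_subset _ _))) S hiF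
        (pderiv_supported i hF) hSd (fun b hb => (Finset.mem_filter.1 hb).2)
    have h2 : B₂.card ≤ (f i * M + 1) ^ (i + 1) :=
      hf i N T κ C Δ lam z B₂ (hall B₂ (Finset.filter_subset _ _)) F hFi hd
        (fun b hb => h0 b (Finset.mem_filter.1 hb).1) (fun b hb => (Finset.mem_filter.1 hb).2)
    have h3 : (f i * M + 1) ^ (i + 1) ≤ (f i + 1) ^ n * M ^ n := by
      calc (f i * M + 1) ^ (i + 1) ≤ ((f i + 1) * M) ^ (i + 1) :=
            Nat.pow_le_pow_left (by nlinarith) _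
        _ ≤ ((f i + 1) * M) ^ n := Nat.pow_le_pow_right (by nlinarith) (by omega)
        _ = (f i + 1) ^ n * M ^ n := mul_pow _ _ _
    have h4 : (f i + 1) ^ n ≤ ∑ i ∈ Finset.range n, (f i + 1) ^ n :=
      Finset.single_le_sum (f := fun i => (f i + 1) ^ n) (fun _ _ => Nat.zero_le _)
        (Finset.mem_range.2 hin)
    calc B.card = B₁.card + B₂.card := hsum.symm
      _ ≤ c * M ^ n + (f i + 1) ^ n * M ^ n := Nat.add_le_add h1 (h2.trans h3)
      _ ≤ c * M ^ n + (∑ i ∈ Finset.range n, (f i + 1) ^ n) * M ^ n :=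
          Nat.add_le_add_left (Nat.mul_le_mul_right _ h4) _
      _ = _ := by rw [Nat.add_mul]

end Single

section Joint

variable {κ C : Type} [Field κ] [Field C] [Algebra κ C]

/-- **The points at which the two separants do not vanish.** -/
theorem step_joint_gen (n₁ n₂ d : ℕ) : ∃ c : ℕ, ∀ (N T : ℕ) (κ C : Type) [Field κ] [Field C]
    [Algebra κ C] (Δ : Derivation κ C C),
    ∀ x l : Fin N → C, ∀ (z₀ l₀ : C) (B : Finset (Fin N → κ)),
    (∀ f : B → C, InP C (vv Δ x l z₀ l₀ B) (2 * N) T f) →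
    ∀ F G : MvPolynomial ℕ C, F ∈ supported C {i : ℕ | i < n₁ + 1} →
    G ∈ supported C {i : ℕ | i < n₂ + 1} → F.totalDegree ≤ d → G.totalDegree ≤ d →
    (∀ b ∈ B, ev Δ (cb x z₀ b) F = 0) → (∀ b ∈ B, ev Δ (cb l l₀ b) G = 0) →
    (∀ b ∈ B, ev Δ (cb x z₀ b) (pderiv n₁ F) ≠ 0) →
    (∀ b ∈ B, ev Δ (cb l l₀ b) (pderiv n₂ G) ≠ 0) →
    B.card ≤ (c * ((N + 1) ^ 3 * T) + 1) ^ (2 * (n₁ + n₂ + 1)) := by
  refine ⟨48 * (5 * d + 2), fun N T κ C _ _ _ Δ x l z₀ l₀ B hall F G hF hG hFd hGd hF0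
    hG0 hFS hGS => ?_⟩
  classical
  obtain ⟨h1, h2⟩ := jets_InP' Δ x z₀ B hF hFd hF0 N
  obtain ⟨k1, k2⟩ := jets_InP' Δ l l₀ B hG hGd hG0 N
  set D₀ := (5 * d + 2) * (N + 1) with hD₀
  set a := 2 * N with ha
  set D := 4 * D₀ + 6 * a * D₀ with hD
  set v := vv Δ x l z₀ l₀ B with hv
  set S₁ := aeval (vj Δ x z₀ B) (pderiv n₁ F) with hS₁
  set S₂ := aeval (vj Δ l l₀ B) (pderiv n₂ G) with hS₂
  set n' := 2 * (n₁ + n₂ + 1) with hn'
  have tr1 : ∀ {T : ℕ} {f : B → C}, InP C (vj Δ x z₀ B) (n₁ + 1) T f → InP C v n' T f := by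
    intro T f h
    exact InP.ren (fun j => 2 * j) (fun j _ => vv_even Δ x l z₀ l₀ B j)
      (fun j hj => by show 2 * j < n'; omega) h
  have tr2 : ∀ {T : ℕ} {f : B → C}, InP C (vj Δ l l₀ B) (n₂ + 1) T f → InP C v n' T f := by
    intro T f h
    exact InP.ren (fun j => 2 * j + 1) (fun j _ => vv_odd Δ x l z₀ l₀ B j)
      (fun j hj => by show 2 * j + 1 < n'; omega) h
  have hS₁0 : ∀ b : B, S₁ b ≠ 0 := by
    intro b
    rw [hS₁, aeval_vj]
    exact hFS b.1 b.2
  have hS₂0 : ∀ b : B, S₂ b ≠ 0 := by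
    intro b
    rw [hS₂, aeval_vj]
    exact hGS b.1 b.2
  set S := S₁ * S₂ with hS
  have hS0 : ∀ b : B, S b ≠ 0 := fun b => mul_ne_zero (hS₁0 b) (hS₂0 b)
  have hSP : InP C v n' D S := ((tr1 h1).mul (tr2 k1)).mono le_rfl (by
    rw [hD]; nlinarith [Nat.zero_le (a * D₀)])
  have hSv : ∀ i < 2 * N, InP C v n' D (S ^ (a + a) * v i) := by
    intro i hi
    rcases Nat.even_or_odd' i with ⟨j, rfl | rfl⟩
    · have e1 : S ^ (a + a) * v (2 * j) = S₁ ^ a * (S₂ ^ (a + a) * (S₁ ^ a * vj Δ x z₀ B j)) := by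
        rw [hv, ← vv_even Δ x l z₀ l₀ B j, hS, mul_pow, pow_add S₁]
        ring
      rw [e1]
      refine (((tr1 h1).pow a).mul (((tr2 k1).pow (a + a)).mul (tr1 (h2 j (by omega))))).mono
        le_rfl ?_
      rw [hD]
      nlinarith [Nat.zero_le (a * D₀)]
    · have e1 : S ^ (a + a) * v (2 * j + 1) =
          S₁ ^ (a + a) * (S₂ ^ a * (S₂ ^ a * vj Δ l l₀ B j)) := by
        rw [hv, ← vv_odd Δ x l z₀ l₀ B j, hS, mul_pow, pow_add S₂]
        ring
      rw [e1]
      refine (((tr1 h1).pow (a + a)).mul (((tr2 k1).pow a).mul (tr2 (k2 j (by omega))))).mono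
        le_rfl ?_
      rw [hD]
      nlinarith [Nat.zero_le (a * D₀)]
  have hall' : ∀ f : B → C, InP C v n' ((a + a + 1) * D * T) f := by
    intro f
    have h3 := InP.subst hSP hSv (hall (fun b => (S b ^ ((a + a) * T))⁻¹ * f b))
    have h4 : S ^ ((a + a) * T) * (fun b => (S b ^ ((a + a) * T))⁻¹ * f b) = f := by
      funext b
      rw [Pi.mul_apply, Pi.pow_apply, ← mul_assoc, mul_inv_cancel₀ (pow_ne_zero _ (hS0 b)), one_mul]
    rw [h4] at h3
    exact h3
  have h3 := card_le_of_InP hall'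
  rw [Fintype.card_coe] at h3
  refine h3.trans (Nat.pow_le_pow_left (Nat.add_le_add_right ?_ 1) _)
  calc (a + a + 1) * D * T ≤ (4 * (N + 1)) * (12 * (N + 1) * D₀) * T := by
        gcongr
        · omega
        · rw [hD]
          nlinarith [Nat.zero_le (N * D₀)]
    _ = _ := by rw [hD₀]; ring

/-- **The number of points of a separated set at which both combinations satisfy differential
equations.** -/
theorem count_joint_gen (n : ℕ) : ∀ e : ℕ, ∃ c : ℕ, ∀ (N T : ℕ), 1 ≤ T → ∀ (κ C : Type) [Field κ]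
    [Field C] [CharZero C] [Algebra κ C] (Δ : Derivation κ C C),
    ∀ x l : Fin N → C, ∀ (z₀ l₀ : C) (B : Finset (Fin N → κ)),
    (∀ B' ⊆ B, ∀ f : B' → C, InP C (vv Δ x l z₀ l₀ B') (2 * N) T f) →
    ∀ F G : MvPolynomial ℕ C, F ≠ 0 → G ≠ 0 → F ∈ supported C {i : ℕ | i < n} →
    G ∈ supported C {i : ℕ | i < n} → F.totalDegree + G.totalDegree ≤ e →
    (∀ b ∈ B, ev Δ (cb x z₀ b) F = 0) → (∀ b ∈ B, ev Δ (cb l l₀ b) G = 0) →
    B.card ≤ c * ((N + 1) ^ 3 * T) ^ (4 * n) := by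
  intro e
  induction e with
  | zero =>
    refine ⟨0, fun N T hT κ C _ _ _ _ Δ x l z₀ l₀ B hall F G hF0 hG0 hF hG hd hFB hGB => ?_⟩
    have h1 : F = MvPolynomial.C (coeff 0 F) := totalDegree_eq_zero_iff_eq_C.1 (by omega)
    rw [Nat.zero_mul, Nat.le_zero, Finset.card_eq_zero, Finset.eq_empty_iff_forall_notMem]
    intro b hb
    have h2 := hFB b hb
    rw [h1] at h2
    unfold ev at h2
    rw [eval_C] at h2
    apply hF0
    rw [h1, h2, map_zero]
  | succ e ih =>
    choose f hf using fun (i j : ℕ) => step_joint_gen i j (e + 1)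
    obtain ⟨c, ih⟩ := ih
    refine ⟨2 * c + ∑ i ∈ Finset.range n, ∑ j ∈ Finset.range n, (f i j + 1) ^ (4 * n),
      fun N T hT κ C _ _ _ _ Δ x l z₀ l₀ B hall F G hF0 hG0 hF hG hd hFB hGB => ?_⟩
    classical
    set M : ℕ := (N + 1) ^ 3 * T with hM
    have hA1 : 1 ≤ M := Nat.mul_pos (pow_pos (Nat.succ_pos N) 3) hT
    have hconst : ∀ (H : MvPolynomial ℕ C) (a : C), H ≠ 0 → H = MvPolynomial.C a →
        ∀ y, ev Δ y H ≠ 0 := by
      intro H a hH hHa y h0
      rw [hHa] at h0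
      unfold ev at h0
      rw [eval_C] at h0
      apply hH
      rw [hHa, h0, map_zero]
    rcases B.eq_empty_or_nonempty with rfl | ⟨b₀, hb₀⟩
    · simp
    rcases last_var hF with ⟨a, ha⟩ | ⟨i, hi, hiF, hFi⟩
    · exact absurd (hFB b₀ hb₀) (hconst F a hF0 ha _)
    rcases last_var hG with ⟨a, ha⟩ | ⟨j, hj, hjG, hGj⟩
    · exact absurd (hGB b₀ hb₀) (hconst G a hG0 ha _)
    set S₁ := pderiv i F with hS₁
    set S₂ := pderiv j G with hS₂
    have hS₁d : S₁.totalDegree + 1 ≤ F.totalDegree := pderiv_totalDegree i F hiF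
    have hS₂d : S₂.totalDegree + 1 ≤ G.totalDegree := pderiv_totalDegree j G hjG
    set B₁ := B.filter (fun b => ev Δ (cb x z₀ b) S₁ = 0) with hB₁
    set B' := B.filter (fun b => ¬ ev Δ (cb x z₀ b) S₁ = 0) with hB'
    set B₂ := B'.filter (fun b => ev Δ (cb l l₀ b) S₂ = 0) with hB₂
    set B₃ := B'.filter (fun b => ¬ ev Δ (cb l l₀ b) S₂ = 0) with hB₃
    have hsum1 : B₁.card + B'.card = B.card := Finset.card_filter_add_card_filter_not _
    have hsum2 : B₂.card + B₃.card = B'.card := Finset.card_filter_add_card_filter_not _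
    have hsub1 : B₁ ⊆ B := Finset.filter_subset _ _
    have hsub' : B' ⊆ B := Finset.filter_subset _ _
    have hsub2 : B₂ ⊆ B := (Finset.filter_subset _ _).trans hsub'
    have hsub3 : B₃ ⊆ B := (Finset.filter_subset _ _).trans hsub'
    have h1 : B₁.card ≤ c * M ^ (4 * n) :=
      ih N T hT κ C Δ x l z₀ l₀ B₁ (fun B'' h => hall B'' (h.trans hsub1)) S₁ G hiF hG0
        (pderiv_supported i hF) hG (by omega) (fun b hb => (Finset.mem_filter.1 hb).2)
        (fun b hb => hGB b (hsub1 hb))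
    have h2 : B₂.card ≤ c * M ^ (4 * n) :=
      ih N T hT κ C Δ x l z₀ l₀ B₂ (fun B'' h => hall B'' (h.trans hsub2)) F S₂ hF0 hjG hF
        (pderiv_supported j hG) (by omega) (fun b hb => hFB b (hsub2 hb))
        (fun b hb => (Finset.mem_filter.1 hb).2)
    have h3 : B₃.card ≤ (f i j * M + 1) ^ (2 * (i + j + 1)) :=
      hf i j N T κ C Δ x l z₀ l₀ B₃ (hall B₃ hsub3) F G hFi hGj (by omega)
        (by omega) (fun b hb => hFB b (hsub3 hb)) (fun b hb => hGB b (hsub3 hb))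
        (fun b hb => (Finset.mem_filter.1 (Finset.mem_filter.1 hb).1).2)
        (fun b hb => (Finset.mem_filter.1 hb).2)
    have h4 : (f i j * M + 1) ^ (2 * (i + j + 1)) ≤ (f i j + 1) ^ (4 * n) * M ^ (4 * n) := by
      calc (f i j * M + 1) ^ (2 * (i + j + 1)) ≤ ((f i j + 1) * M) ^ (2 * (i + j + 1)) :=
            Nat.pow_le_pow_left (by nlinarith) _
        _ ≤ ((f i j + 1) * M) ^ (4 * n) := Nat.pow_le_pow_right (by nlinarith) (by omega)
        _ = (f i j + 1) ^ (4 * n) * M ^ (4 * n) := mul_pow _ _ _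
    have h5 : (f i j + 1) ^ (4 * n) ≤
        ∑ i ∈ Finset.range n, ∑ j ∈ Finset.range n, (f i j + 1) ^ (4 * n) := by
      refine le_trans ?_ (Finset.single_le_sum
        (f := fun i => ∑ j ∈ Finset.range n, (f i j + 1) ^ (4 * n)) (fun _ _ => Nat.zero_le _)
        (Finset.mem_range.2 hi))
      exact Finset.single_le_sum (f := fun j => (f i j + 1) ^ (4 * n)) (fun _ _ => Nat.zero_le _)
        (Finset.mem_range.2 hj)
    have h6 := Nat.mul_le_mul_right (M ^ (4 * n)) h5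
    calc B.card = B₁.card + (B₂.card + B₃.card) := by rw [hsum2, hsum1]
      _ ≤ c * M ^ (4 * n) + (c * M ^ (4 * n) + (f i j + 1) ^ (4 * n) * M ^ (4 * n)) :=
          Nat.add_le_add h1 (Nat.add_le_add h2 (h3.trans h4))
      _ ≤ c * M ^ (4 * n) + (c * M ^ (4 * n) +
          (∑ i ∈ Finset.range n, ∑ j ∈ Finset.range n, (f i j + 1) ^ (4 * n)) *
            M ^ (4 * n)) := by gcongr
      _ = _ := by ring

end Joint

end Pool.Agent.Zk44.DT
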