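import Mathlib
import Pool.Agent.Zk44.DT.Gen

/-!
# Linear maps which do not vanish on a set of bounded dimension
-/

set_option autoImplicit false

namespace Pool.Agent.Zk44.DT

open Module

theorem exists_seq {M : Type*} (P : (N : ℕ) → (Fin N → M) → M → Prop)
    (h : ∀ N p, ∃ w, P N p w) : ∃ v : ℕ → M, ∀ N, P N (fun i => v i) (v N) := by
  classical
  choose f hf using h
  let v : ℕ → M := fun N => Nat.strongRec (motive := fun _ => M)
    (fun N ih => f N (fun i => ih i i.2)) N
  have hv : ∀ N, v N = f N (fun i => v i) := by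
    intro N
    show Nat.strongRec (motive := fun _ => M) (fun N ih => f N (fun i => ih i i.2)) N = _
    rw [Nat.strongRec_eq]
  exact ⟨v, fun N => by rw [hv N]; exact hf N _⟩

theorem exists_phi {k C : Type} [Field k] [AddCommGroup C] [Module k C]
    (hinf : ¬ Module.Finite k C) (S : Set C) (hS : S.Countable) (m : ℕ)
    (hstep : ∀ (N : ℕ) (x : Fin (N + 1) → C), LinearIndependent k x → ∀ ℓ : Fin N → Fin m → k,
      ∃ w : Fin m → k, ∀ a : Fin (N + 1) → k, a (Fin.last N) ≠ 0 → ∑ i, a i • x i ∈ S →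
        ∑ i : Fin N, a i.castSucc • ℓ i + a (Fin.last N) • w ≠ 0) :
    ∃ φ : C →ₗ[k] (Fin m → k), ∀ s ∈ S, s ≠ 0 → φ s ≠ 0 := by
  classical
  let b := Basis.ofVectorSpace k C
  let I := Basis.ofVectorSpaceIndex k C
  have hI : Infinite I := by
    by_contra h
    rw [not_infinite_iff_finite] at h
    exact hinf (Module.Finite.of_basis b)
  let J : Set I := (⋃ s ∈ S, ((b.repr s).support : Set I)) ∪ Set.range (Infinite.natEmbedding I)
  have hJc : J.Countable := by
    refine Set.Countable.union ?_ (Set.countable_range _)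
    exact hS.biUnion fun s _ => (Finset.finite_toSet _).countable
  have hJi : Infinite J := by
    refine Infinite.of_injective (fun n : ℕ => (⟨Infinite.natEmbedding I n, Or.inr ⟨n, rfl⟩⟩ : J)) ?_
    intro a a' h
    exact (Infinite.natEmbedding I).injective (congrArg Subtype.val h)
  have hJc' : Countable J := hJc.to_subtype
  obtain ⟨e⟩ : Nonempty (ℕ ≃ J) := nonempty_equiv_of_countable
  let x : ℕ → C := fun n => b (e n : I)
  have hx : LinearIndependent k x :=
    b.linearIndependent.comp (fun n => (e n : I)) (Subtype.val_injective.comp e.injective)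
  obtain ⟨v, hv⟩ := exists_seq (M := Fin m → k) (fun N p w => ∀ a : Fin (N + 1) → k,
    a (Fin.last N) ≠ 0 → ∑ i, a i • x i ∈ S →
    ∑ i : Fin N, a i.castSucc • p i + a (Fin.last N) • w ≠ 0) (fun N p =>
      hstep N (fun i => x i) (hx.comp _ Fin.val_injective) p)
  let φ : C →ₗ[k] (Fin m → k) := b.constr k
    (fun i => if h : i ∈ J then v (e.symm ⟨i, h⟩) else 0)
  have hφ : ∀ n, φ (x n) = v n := by
    intro n
    show (b.constr k _) (b (e n : I)) = v n
    rw [Basis.constr_basis]
    rw [dif_pos (e n).2]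
    congr 1
    exact e.symm_apply_apply n
  refine ⟨φ, fun s hs hs0 => ?_⟩
  have hmem : s ∈ Submodule.span k (Set.range x) := by
    refine Submodule.span_mono ?_ (b.mem_span_repr_support s)
    rintro _ ⟨i, hi, rfl⟩
    have hiJ : i ∈ J := Or.inl (Set.mem_biUnion hs hi)
    refine ⟨e.symm ⟨i, hiJ⟩, ?_⟩
    show b (e (e.symm ⟨i, hiJ⟩) : I) = b i
    rw [Equiv.apply_symm_apply]
  obtain ⟨c, hc⟩ := Finsupp.mem_span_range_iff_exists_finsupp.1 hmem
  have hc0 : c ≠ 0 := by
    rintro rfl
    rw [Finsupp.sum_zero_index] at hc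
    exact hs0 hc.symm
  have hne : c.support.Nonempty := Finsupp.support_nonempty_iff.2 hc0
  set N := c.support.max' hne with hN
  have hNc : c N ≠ 0 := Finsupp.mem_support_iff.1 (Finset.max'_mem _ hne)
  have hsub : c.support ⊆ Finset.range (N + 1) := by
    intro i hi
    exact Finset.mem_range.2 (Nat.lt_succ_of_le (Finset.le_max' _ i hi))
  have h1 : s = ∑ i : Fin (N + 1), c i • x i := by
    rw [← hc, Finsupp.sum_of_support_subset c hsub (fun i a => a • x i) (by simp),
      Finset.sum_range]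
  have h2 : φ s = ∑ i : Fin N, c i • v i + c N • v N := by
    have h3 : φ s = ∑ i : Fin (N + 1), c i • v i := by
      conv_lhs => rw [h1]
      rw [map_sum]
      refine Finset.sum_congr rfl fun i _ => ?_
      rw [map_smul, hφ]
    rw [h3, Fin.sum_univ_castSucc]
    rfl
  rw [h2]
  exact hv N (fun i => c i) hNc (by rw [← h1]; exact hs)

theorem step_of_count {k C : Type} [Field k] [Infinite k] [AddCommGroup C] [Module k C]
    (S : Set C) (m p : ℕ) (hpm : p < m)
    (hcount : ∀ N : ℕ, ∃ c : ℕ, ∀ x : Fin N → C, LinearIndependent k x →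
      ∀ (α₀ : Fin N → k) (α : Fin m → Fin N → k) (A : Finset k) (B : Finset (Fin N → k)),
      A.Nonempty → Sep α₀ α A B → (∀ b ∈ B, ∑ i, b i • x i ∈ S) → B.card ≤ c * A.card ^ p) :
    ∀ (N : ℕ) (x : Fin (N + 1) → C), LinearIndependent k x → ∀ ℓ : Fin N → Fin m → k,
      ∃ w : Fin m → k, ∀ a : Fin (N + 1) → k, a (Fin.last N) ≠ 0 → ∑ i, a i • x i ∈ S →
        ∑ i : Fin N, a i.castSucc • ℓ i + a (Fin.last N) • w ≠ 0 := by
  classical
  intro N x hx ℓ
  by_contra hcon
  push Not at hcon
  choose a ha0 haS ha using hcon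
  obtain ⟨c, hc⟩ := hcount (N + 1)
  obtain ⟨A, hA⟩ := Infinite.exists_subset_card_eq k (c + 1)
  have hAne : A.Nonempty := by
    rw [← Finset.card_pos, hA]
    omega
  let α₀ : Fin (N + 1) → k := Pi.single (Fin.last N) 1
  let α : Fin m → Fin (N + 1) → k := fun j => Fin.snoc (fun i : Fin N => -(ℓ i j)) 0
  have h0 : ∀ b : Fin (N + 1) → k, ∑ i, α₀ i * b i = b (Fin.last N) := by
    intro b
    rw [Finset.sum_eq_single (Fin.last N)]
    · simp [α₀]
    · intro i _ hi
      simp [α₀, Pi.single_eq_of_ne hi]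
    · intro h; exact absurd (Finset.mem_univ _) h
  have h1 : ∀ w j, ∑ i, α j i * a w i = a w (Fin.last N) * w j := by
    intro w j
    rw [Fin.sum_univ_castSucc]
    have h2 := congrFun (ha w) j
    simp only [Pi.add_apply, Finset.sum_apply, Pi.smul_apply, smul_eq_mul, Pi.zero_apply] at h2
    simp only [α, Fin.snoc_castSucc, Fin.snoc_last, zero_mul, add_zero]
    rw [eq_comm, ← sub_eq_zero, ← h2, sub_eq_add_neg, add_comm, ← Finset.sum_neg_distrib]
    congr 1
    refine Finset.sum_congr rfl fun i _ => ?_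
    ring
  have hratio : ∀ w j, (∑ i, α j i * a w i) / (∑ i, α₀ i * a w i) = w j := by
    intro w j
    rw [h1, h0, mul_div_cancel_left₀ _ (ha0 w)]
  have hinj : Function.Injective a := by
    intro w w' h
    funext j
    rw [← hratio w j, ← hratio w' j, h]
  let W : Finset (Fin m → k) := Fintype.piFinset fun _ => A
  have hW : W.card = (c + 1) ^ m := by
    show (Fintype.piFinset fun _ => A).card = _
    rw [Fintype.card_piFinset_const, hA]
  have h3 := hc x hx α₀ α A (W.image a) hAne ⟨by
    intro b hb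
    obtain ⟨w, _, rfl⟩ := Finset.mem_image.1 hb
    rw [h0]
    exact ha0 w, by
    intro b hb j
    obtain ⟨w, hw, rfl⟩ := Finset.mem_image.1 hb
    rw [hratio]
    exact Fintype.mem_piFinset.1 hw j, by
    intro b hb b' hb' h
    obtain ⟨w, _, rfl⟩ := Finset.mem_image.1 hb
    obtain ⟨w', _, rfl⟩ := Finset.mem_image.1 hb'
    congr 1
    funext j
    have := h j
    rwa [hratio, hratio] at this⟩ (by
    intro b hb
    obtain ⟨w, _, rfl⟩ := Finset.mem_image.1 hb
    exact haS w)
  rw [Finset.card_image_of_injective _ hinj, hW, hA] at h3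
  have h4 : (c + 1) ^ (p + 1) ≤ (c + 1) ^ m := Nat.pow_le_pow_right (by omega) hpm
  have h5 : 0 < (c + 1) ^ p := pow_pos (by omega) p
  rw [pow_succ] at h4
  nlinarith

end Pool.Agent.Zk44.DT
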