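import Mathlib
import Pool.Agent.Zk44.DT.Phi
import Pool.Agent.Zk44.GE.DimTuple
import Pool.Agent.Zk44.SC.Row

/-!
# Subspaces of bounded codimension without bad numbers
-/

set_option autoImplicit false

namespace Pool.Agent.Zk44.DT

open Module Pool.Agent.R351 Complex
open Pool.Agent.H301R2.SSE (QB)
open Pool.Agent.Zk44.GE (ap ExpLike exists_der_exp countable_QB)
open Pool.Agent.Zk44.GE.Ode (cb vj InP coord_InP bad_ode ev)
open Pool.Agent.Zk44.SC (vv coord_joint exists_lam bad_ode2 psi exists_shift const_of joint_indep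
  good1_append der_exp psi_comb)

section Countable

theorem countable_adjoin (s : Set ℂ) (hs : s.Countable) : Countable (Algebra.adjoin QB s) := by
  have h1 : Countable QB := countable_QB
  have h5 : Countable s := hs.to_subtype
  have h9 : Algebra.adjoin QB s = (MvPolynomial.aeval (R := QB) (fun x : s => (x : ℂ))).range := by
    rw [← Algebra.adjoin_range_eq_range_aeval, Subtype.range_coe]
  rw [h9]
  have h7 : Function.Surjective (MvPolynomial.aeval (R := QB) (fun x : s => (x : ℂ))).rangeRestrict :=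
    AlgHom.rangeRestrict_surjective _
  have h8 : Countable (MvPolynomial s QB) := by
    rw [← Cardinal.mk_le_aleph0_iff]
    refine MvPolynomial.cardinalMk_le_max.trans ?_
    simp
  exact h7.countable

/-- The numbers which satisfy a relation are algebraic over the parameters. -/
theorem bad_algebraic {g L : ℕ} (t : Fin g → ℂ) (s : Set ℂ) (ht : ∀ o, t o ∈ s) {z : ℂ}
    (hz : ¬ Good1 QB t L z) : IsAlgebraic (Algebra.adjoin QB s) z := by
  classical
  unfold Good1 at hz
  push Not at hz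
  obtain ⟨G, hG, l, hl, h0, hne⟩ := hz
  obtain ⟨c, e, u, hG⟩ := hG
  set f := algebraMap (Algebra.adjoin QB s) ℂ with hf
  have hb : ∀ o, bt1 t o ∈ Polynomial.lifts f := by
    rintro (_ | o)
    · exact Polynomial.X_mem_lifts f
    · exact Polynomial.C'_mem_lifts ⟨⟨t o, Algebra.subset_adjoin (ht o)⟩, rfl⟩
  have hlift : ∀ l, l < L → G l ∈ Polynomial.lifts f := by
    intro l
    induction l using Nat.strong_induction_on with
    | _ l ih =>
      intro hl
      rw [hG l hl]
      refine Subsemiring.sum_mem _ fun b _ => ?_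
      rw [Algebra.smul_def]
      refine Subsemiring.mul_mem _ ?_ (Subsemiring.mul_mem _ ?_ ?_)
      · have h1 : algebraMap QB (Polynomial ℂ) (c l b) =
            Polynomial.C (f (algebraMap QB (Algebra.adjoin QB s) (c l b))) := by
          rw [hf, ← IsScalarTower.algebraMap_apply QB (Algebra.adjoin QB s) ℂ]
          rfl
        rw [h1]
        exact Polynomial.C_mem_lifts f _
      · exact Subsemiring.prod_mem _ fun o _ => Subsemiring.pow_mem _ (hb o) _
      · refine Subsemiring.prod_mem _ fun l' hl' => Subsemiring.pow_mem _ ?_ _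
        have := Finset.mem_range.1 hl'
        exact ih l' this (this.trans hl)
  obtain ⟨q, hq⟩ := (Polynomial.mem_lifts _).1 (hlift l hl)
  refine ⟨q, ?_, ?_⟩
  · rintro rfl
    rw [Polynomial.map_zero] at hq
    exact hne hq.symm
  · rw [Polynomial.aeval_def, ← Polynomial.eval_map, hq]
    exact h0

theorem bad_countable (h g L : ℕ) (t : Fin g → ℂ) :
    {z : ℂ | ¬ ∀ γ : Fin h → QB, Good1 QB (ap γ t) L z}.Countable := by
  have h1 : Countable QB := countable_QB
  set s : Set ℂ := Set.range t ∪ Set.range (fun γ : QB => cexp (γ : ℂ)) with hs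
  have hsc : s.Countable := (Set.countable_range _).union (Set.countable_range _)
  have h2 := countable_adjoin s hsc
  refine (Algebraic.countable (Algebra.adjoin QB s) ℂ).mono ?_
  intro z hz
  rw [Set.mem_setOf_eq] at hz ⊢
  push Not at hz
  obtain ⟨γ, hγ⟩ := hz
  refine bad_algebraic (ap γ t) s ?_ hγ
  intro o
  unfold ap
  refine Fin.addCases (fun o => ?_) (fun o => ?_) o
  · rw [Fin.append_left]
    exact Or.inr ⟨γ o, rfl⟩
  · rw [Fin.append_right]
    exact Or.inl ⟨o, rfl⟩

end Countable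

theorem not_finite_QB : ¬ Module.Finite QB ℂ := by
  intro h
  obtain ⟨lam, hlam⟩ := exists_lam (Module.finrank QB ℂ + 1)
  have := hlam.fintype_card_le_finrank
  rw [Fintype.card_fin] at this
  exact Nat.not_succ_le_self _ this

theorem not_finite_Q : ¬ Module.Finite ℚ ℂ := by
  intro h
  exact not_finite_QB (Module.Finite.of_restrictScalars_finite ℚ QB ℂ)

theorem infinite_QB : Infinite QB := by
  have hac : IsAlgClosure ℚ QB := algebraicClosure.isAlgClosure ℚ ℂ
  have hacl : IsAlgClosed QB := IsAlgClosure.isAlgClosed ℚ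
  exact IsAlgClosed.instInfinite

/-- Change of the field. -/
theorem Sep.map {k κ : Type} [Field k] [Field κ] [DecidableEq κ] (f : k →+* κ) {N m : ℕ}
    {α₀ : Fin N → k} {α : Fin m → Fin N → k} {A : Finset k} {B : Finset (Fin N → k)}
    (h : Sep α₀ α A B) : Sep (fun i => f (α₀ i)) (fun j i => f (α j i)) (A.image f)
      (B.image (fun b i => f (b i))) := by
  have h1 : ∀ (β : Fin N → k) (b : Fin N → k), ∑ i, f (β i) * f (b i) = f (∑ i, β i * b i) := by
    intro β b
    rw [map_sum]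
    exact Finset.sum_congr rfl fun i _ => (map_mul f _ _).symm
  refine ⟨?_, ?_, ?_⟩
  · intro b₁ hb₁
    obtain ⟨b, hb, rfl⟩ := Finset.mem_image.1 hb₁
    rw [h1]
    exact fun h0 => h.1 b hb ((map_eq_zero f).1 h0)
  · intro b₁ hb₁ j
    obtain ⟨b, hb, rfl⟩ := Finset.mem_image.1 hb₁
    rw [h1, h1, ← map_div₀]
    exact Finset.mem_image_of_mem _ (h.2.1 b hb j)
  · intro b₁ hb₁ b₂ hb₂ hbb
    obtain ⟨b, hb, rfl⟩ := Finset.mem_image.1 hb₁
    obtain ⟨b', hb', rfl⟩ := Finset.mem_image.1 hb₂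
    have h2 := h.2.2 b hb b' hb' fun j => by
      have h3 := hbb j
      rw [h1, h1, h1, h1, ← map_div₀, ← map_div₀] at h3
      exact f.injective h3
    rw [h2]

/-- **The count for one number**, over all exponentials. -/
theorem count_one (h g L : ℕ) : ∃ p : ℕ, ∀ (m : ℕ), 1 ≤ m → ∀ (t : Fin g → ℂ) (N : ℕ),
    ∃ c : ℕ, ∀ x : Fin N → ℂ, LinearIndependent QB x →
      ∀ (α₀ : Fin N → QB) (α : Fin m → Fin N → QB) (A : Finset QB) (B : Finset (Fin N → QB)),
      A.Nonempty → Sep α₀ α A B →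
      (∀ b ∈ B, ∑ i, b i • x i ∈ {z : ℂ | ¬ ∀ γ : Fin h → QB, Good1 QB (ap γ t) L z}) →
      B.card ≤ c * A.card ^ p := by
  classical
  have hac : IsAlgClosure ℚ QB := algebraicClosure.isAlgClosure ℚ ℂ
  have hacl : IsAlgClosed QB := IsAlgClosure.isAlgClosed ℚ
  obtain ⟨Δ, hΔe, hΔ⟩ := exists_der_exp
  obtain ⟨n, d, R, H⟩ := bad_ode h g L
  obtain ⟨lam, hlam⟩ := exists_lam R
  obtain ⟨c₀, hc₀⟩ := count_gen n d
  refine ⟨n, fun m hm t N => ⟨c₀ * ((N + 1) ^ 2 * (2 * m)) ^ n, fun x hx α₀ α A B hA hsep hB => ?_⟩⟩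
  obtain ⟨F, hF0, hF, hFd, hFbad⟩ := H QB ℂ Δ hΔ t R le_rfl lam hlam
  have hT : 1 ≤ 2 * (m * A.card) :=
    Nat.mul_pos (by norm_num) (Nat.mul_pos hm hA.card_pos)
  have h1 := hc₀ N (2 * (m * A.card)) hT QB ℂ Δ x 0 B (fun B' hB' f =>
    (hsep.mono hB').all (fun k => coord_InP Δ hΔ x hx 0 B' k) f) F hF0 hF hFd (by
    intro b hb
    refine hFbad _ fun hgood => hB b hb fun γ => ?_
    have h2 := hgood (fun o => cexp (γ o : ℂ)) (fun o => ⟨Complex.exp_ne_zero _, γ o, hΔe (γ o)⟩)
    have h3 : cb x 0 b = ∑ i, b i • x i := by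
      unfold cb
      rw [zero_add]
    rw [h3] at h2
    exact h2)
  refine h1.trans (le_of_eq ?_)
  rw [mul_assoc, ← mul_pow]
  congr 2
  ring

/-- **The joint count** for a number and its exponential. -/
theorem count_two (g L : ℕ) : ∃ p : ℕ, ∀ (m : ℕ), 1 ≤ m → ∀ (t : Fin g → ℂ) (N : ℕ),
    ∃ c : ℕ, ∀ x : Fin N → ℂ, LinearIndependent ℚ x →
      ∀ (α₀ : Fin N → ℚ) (α : Fin m → Fin N → ℚ) (A : Finset ℚ) (B : Finset (Fin N → ℚ)),
      A.Nonempty → Sep α₀ α A B →
      (∀ b ∈ B, ∑ i, b i • x i ∈ {z : ℂ | ¬ Good1 QB t L z ∧ ¬ Good1 QB t L (cexp z)}) →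
      B.card ≤ c * A.card ^ p := by
  classical
  have hac : IsAlgClosure ℚ QB := algebraicClosure.isAlgClosure ℚ ℂ
  have hacl : IsAlgClosed QB := IsAlgClosure.isAlgClosed ℚ
  have hcnt : Countable QB := countable_QB
  have hunc : Uncountable ℂ := not_countable_iff.1 (fun h => not_countable_complex
    (Set.countable_univ_iff.2 h))
  obtain ⟨Δ, hΔ⟩ := exists_shift
  have hconst := const_of hΔ
  obtain ⟨n, d, R, H⟩ := bad_ode2 0 g L
  obtain ⟨lam, hlam⟩ := exists_lam R
  obtain ⟨c₀, hc₀⟩ := count_joint_gen n (d + d)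
  refine ⟨4 * n, fun m hm t N => ⟨c₀ * ((N + 1) ^ 3 * (2 * m)) ^ (4 * n),
    fun x hx α₀ α A B hA hsep hB => ?_⟩⟩
  obtain ⟨F, G, hF0, hG0, hF, hG, hFd, hGd, hFbad, hGbad⟩ := H QB ℂ Δ hconst t lam hlam
  -- the points as points over `ℚ̄`
  let f : ℚ →+* QB := algebraMap ℚ QB
  let ι : (Fin N → ℚ) → (Fin N → QB) := fun b k => f (b k)
  have hι : Function.Injective ι := by
    intro b b' h
    funext k
    exact f.injective (congrFun h k)
  have hcast : ∀ q : ℚ, ((algebraMap ℚ QB q : QB) : ℂ) = (q : ℂ) := by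
    intro q
    simp
  have hcb : ∀ (u : Fin N → ℂ) (z : ℂ) (b : Fin N → ℚ), cb u z (ι b) = z + ∑ k, (b k : ℂ) * u k := by
    intro u z b
    unfold cb
    refine congrArg (fun s => z + s) (Finset.sum_congr rfl fun k _ => ?_)
    rw [Algebra.smul_def]
    have h6 : algebraMap QB ℂ (ι b k) = ((algebraMap ℚ QB (b k) : QB) : ℂ) := rfl
    rw [h6, hcast]
  have hsum : ∀ b : Fin N → ℚ, (0 : ℂ) + ∑ k, (b k : ℂ) * x k = ∑ i, b i • x i := by
    intro b
    rw [zero_add]
    exact Finset.sum_congr rfl fun k _ => (Rat.smul_def _ _).symm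
  have hsep' := hsep.map f
  have hA' : 1 ≤ (A.image f).card := (hA.image f).card_pos
  have hT : 1 ≤ 2 * (m * (A.image f).card) := Nat.mul_pos (by norm_num) (Nat.mul_pos hm hA')
  have h1 := hc₀ N (2 * (m * (A.image f).card)) hT QB ℂ Δ x (fun j => psi Δ (x j)) 0 (psi Δ 0)
    (B.image ι) (fun B' hB' ff => (hsep'.mono hB').all
      (fun k => (coord_joint Δ hconst x (fun j => psi Δ (x j))
        (fun c h1 h2 => joint_indep hΔ x hx c h1 h2) 0 (psi Δ 0) B' k)) ff)
    F G hF0 hG0 hF hG (Nat.add_le_add hFd hGd)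
    (by
      intro b hb
      obtain ⟨b', hb', rfl⟩ := Finset.mem_image.1 hb
      rw [hcb]
      refine hFbad _ fun hgood => (hB b' hb').1 ?_
      rw [← hsum]
      exact good1_append (fun i => i.elim0) (hgood (fun i => i.elim0) (fun i => i.elim0)))
    (by
      intro b hb
      obtain ⟨b', hb', rfl⟩ := Finset.mem_image.1 hb
      rw [hcb]
      refine hGbad (cexp (0 + ∑ k, (b' k : ℂ) * x k)) _ (Complex.exp_ne_zero _) ?_
        fun hgood => (hB b' hb').2 ?_
      · rw [der_exp, psi_comb]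
      · rw [← hsum]
        exact good1_append (fun i => i.elim0) (hgood (fun i => i.elim0) (fun i => i.elim0)))
  rw [Finset.card_image_of_injective _ hι, Finset.card_image_of_injective _ f.injective] at h1
  refine h1.trans (le_of_eq ?_)
  rw [mul_assoc, ← mul_pow]
  congr 2
  ring

/-- **Over the algebraic numbers**: a subspace of bounded codimension without nonzero numbers which are
related to the parameters and to any exponentials. -/
theorem phi_one (h g L : ℕ) : ∃ c : ℕ, ∀ t : Fin g → ℂ, ∃ φ : ℂ →ₗ[QB] (Fin c → QB),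
    ∀ z : ℂ, z ≠ 0 → φ z = 0 → ∀ γ : Fin h → QB, Good1 QB (ap γ t) L z := by
  obtain ⟨p, hp⟩ := count_one h g L
  have hinf := infinite_QB
  refine ⟨p + 1, fun t => ?_⟩
  obtain ⟨φ, hφ⟩ := exists_phi not_finite_QB _ (bad_countable h g L t) (p + 1)
    (step_of_count _ (p + 1) p (Nat.lt_succ_self p) (hp (p + 1) (Nat.succ_pos p) t))
  refine ⟨φ, fun z hz hz0 => ?_⟩
  by_contra hcon
  exact hφ z hcon hz hz0

/-- **Over the rational numbers**: a subspace of bounded codimension all of whose nonzero elements `z`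
satisfy: `z` or `e^z` is not related to the parameters. -/
theorem phi_two (g L : ℕ) : ∃ c : ℕ, ∀ t : Fin g → ℂ, ∃ φ : ℂ →ₗ[ℚ] (Fin c → ℚ),
    ∀ z : ℂ, z ≠ 0 → φ z = 0 → Good1 QB t L z ∨ Good1 QB t L (cexp z) := by
  obtain ⟨p, hp⟩ := count_two g L
  refine ⟨p + 1, fun t => ?_⟩
  have hS : {z : ℂ | ¬ Good1 QB t L z ∧ ¬ Good1 QB t L (cexp z)}.Countable := by
    have h1 : Countable QB := countable_QB
    have h2 := countable_adjoin (Set.range t) (Set.countable_range _)
    refine (Algebraic.countable (Algebra.adjoin QB (Set.range t)) ℂ).mono ?_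
    intro z hz
    exact bad_algebraic t (Set.range t) (fun o => Set.mem_range_self o) hz.1
  obtain ⟨φ, hφ⟩ := exists_phi not_finite_Q _ hS (p + 1)
    (step_of_count _ (p + 1) p (Nat.lt_succ_self p) (hp (p + 1) (Nat.succ_pos p) t))
  refine ⟨φ, fun z hz hz0 => ?_⟩
  by_contra hcon
  push Not at hcon
  exact hφ z hcon hz hz0

end Pool.Agent.Zk44.DT
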