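import Mathlib
import Pool.Agent.Zk44.DT.Main
import Pool.Agent.Zk44.SC.Rows

/-!
# Tuples whose entries lie in subspaces of bounded codimension
-/

set_option autoImplicit false

namespace Pool.Agent.Zk44.DT

open Module Pool.Agent.R351 Complex
open Pool.Agent.H301R2.SSE (QB)
open Pool.Agent.Zk44.GE (ap GoodT.reindex)
open Pool.Agent.Zk44.SC (val)

section Join

variable {k C : Type} [Field k] [AddCommGroup C] [Module k C]

/-- the common linear map -/
def join {a b : ℕ} (f : C →ₗ[k] (Fin a → k)) (g : C →ₗ[k] (Fin b → k)) : C →ₗ[k] (Fin (a + b) → k) :=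
  LinearMap.pi fun i => Fin.addCases (fun i => (LinearMap.proj i).comp f)
    (fun i => (LinearMap.proj i).comp g) i

theorem join_eq_zero {a b : ℕ} {f : C →ₗ[k] (Fin a → k)} {g : C →ₗ[k] (Fin b → k)} {z : C}
    (h : join f g z = 0) : f z = 0 ∧ g z = 0 := by
  constructor
  · funext i
    have h1 := congrFun h (Fin.castAdd b i)
    simpa [join] using h1
  · funext i
    have h1 := congrFun h (Fin.natAdd a i)
    simpa [join] using h1

end Join

/-- The entries of `z` are nonzero elements of the kernels which are given by the earlier entries. -/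
def Chain {k : Type} [Field k] [Module k ℂ] {c n : ℕ}
    (Φ : (j : ℕ) → (Fin j → ℂ) → (ℂ →ₗ[k] (Fin c → k))) (z : Fin n → ℂ) : Prop :=
  ∀ j : Fin n, z j ≠ 0 ∧ Φ j (fun i => z ⟨i, i.2.trans j.2⟩) (z j) = 0

/-- **Tuples**: the numbers or their exponentials. -/
theorem tuple_two (L n : ℕ) : ∀ g : ℕ, ∃ c : ℕ, ∀ t : Fin g → ℂ,
    ∃ Φ : (j : ℕ) → (Fin j → ℂ) → (ℂ →ₗ[ℚ] (Fin c → ℚ)),
    ∀ z : Fin n → ℂ, Chain Φ z → ∃ e : Fin n → Bool, GoodT QB t L (fun j => val (e j) (z j)) := by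
  have hinf : Infinite QB := infinite_QB
  induction n with
  | zero =>
    intro g
    exact ⟨0, fun t => ⟨fun _ _ => 0, fun z _ => ⟨fun _ => true, goodT_zero _ _⟩⟩⟩
  | succ n ih =>
    intro g
    obtain ⟨c₁, h₁⟩ := phi_two g L
    obtain ⟨c₂, h₂⟩ := ih (g + 1)
    refine ⟨c₁ + (c₂ + c₂), fun t => ?_⟩
    obtain ⟨φ, hφ⟩ := h₁ t
    choose Ψ hΨ using h₂
    refine ⟨fun j => match j with
      | 0 => fun _ => join φ 0
      | j + 1 => fun u => join (0 : ℂ →ₗ[ℚ] (Fin c₁ → ℚ))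
          (join (Ψ (Fin.cons (u 0) t) j (fun i => u i.succ))
            (Ψ (Fin.cons (cexp (u 0)) t) j (fun i => u i.succ))), fun z hz => ?_⟩
    have h0 := hz 0
    have hz0 : φ (z 0) = 0 := (join_eq_zero h0.2).1
    have hsucc : ∀ j : Fin n, z j.succ ≠ 0 ∧
        Ψ (Fin.cons (z 0) t) j (fun i => z (Fin.succ ⟨i, i.2.trans j.2⟩)) (z j.succ) = 0 ∧
        Ψ (Fin.cons (cexp (z 0)) t) j (fun i => z (Fin.succ ⟨i, i.2.trans j.2⟩)) (z j.succ) = 0 := by
      intro j
      have h1 := hz j.succ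
      have h2 := (join_eq_zero h1.2).2
      exact ⟨h1.1, join_eq_zero h2⟩
    obtain ⟨e₀, h3⟩ : ∃ e₀ : Bool, Good1 QB t L (val e₀ (z 0)) := by
      rcases hφ (z 0) h0.1 hz0 with h | h
      · exact ⟨false, h⟩
      · exact ⟨true, h⟩
    obtain ⟨e, he⟩ := hΨ (Fin.cons (val e₀ (z 0)) t) (fun j => z j.succ) (fun j => by
      refine ⟨(hsucc j).1, ?_⟩
      cases e₀
      · exact (hsucc j).2.1
      · exact (hsucc j).2.2)
    refine ⟨Fin.cons e₀ e, ?_⟩
    have h4 := goodT_cons h3 he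
    have h5 : (fun j => val ((Fin.cons e₀ e : Fin (n + 1) → Bool) j) (z j)) =
        (Fin.cons (val e₀ (z 0)) (fun j : Fin n => val (e j) (z j.succ)) : Fin (n + 1) → ℂ) := by
      funext j
      refine Fin.cases ?_ (fun j => ?_) j
      · rw [Fin.cons_zero, Fin.cons_zero]
      · rw [Fin.cons_succ, Fin.cons_succ]
    rw [h5]
    exact h4

/-- **Tuples**: linear maps over the algebraic numbers, all exponentials. -/
theorem tuple_one (h L n : ℕ) : ∀ g : ℕ, ∃ c : ℕ, ∀ t : Fin g → ℂ,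
    ∃ Φ : (j : ℕ) → (Fin j → ℂ) → (ℂ →ₗ[QB] (Fin c → QB)),
    ∀ z : Fin n → ℂ, Chain Φ z → ∀ γ : Fin h → QB, GoodT QB (ap γ t) L z := by
  have hinf : Infinite QB := infinite_QB
  induction n with
  | zero =>
    intro g
    exact ⟨0, fun t => ⟨fun _ _ => 0, fun z _ γ => goodT_zero _ _⟩⟩
  | succ n ih =>
    intro g
    obtain ⟨c₁, h₁⟩ := phi_one h g L
    obtain ⟨c₂, h₂⟩ := ih (g + 1)
    refine ⟨c₁ + c₂, fun t => ?_⟩
    obtain ⟨φ, hφ⟩ := h₁ t
    choose Ψ hΨ using h₂
    refine ⟨fun j => match j with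
      | 0 => fun _ => join φ 0
      | j + 1 => fun u => join (0 : ℂ →ₗ[QB] (Fin c₁ → QB))
          (Ψ (Fin.cons (u 0) t) j (fun i => u i.succ)), fun z hz γ => ?_⟩
    have h0 := hz 0
    have hz0 : φ (z 0) = 0 := (join_eq_zero h0.2).1
    have h3 := hφ (z 0) h0.1 hz0
    have h7 := hΨ (Fin.cons (z 0) t) (fun j => z j.succ) (fun j => by
      have h1 := hz j.succ
      exact ⟨h1.1, (join_eq_zero h1.2).2⟩)
    have h4 : GoodT QB (Fin.cons (z 0) (ap γ t) : Fin (h + g + 1) → ℂ) L (fun j => z j.succ) := by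
      refine GoodT.reindex (T' := ap γ (Fin.cons (z 0) t : Fin (g + 1) → ℂ))
        (Fin.cons (Fin.natAdd h 0) (fun o => Fin.addCases (fun o => Fin.castAdd (g + 1) o)
          (fun o => Fin.natAdd h o.succ) o)) ?_ (h7 γ)
      intro o
      refine Fin.cases ?_ (fun o => ?_) o
      · simp only [Fin.cons_zero]
        unfold ap
        rw [Fin.append_right, Fin.cons_zero]
      · simp only [Fin.cons_succ]
        unfold ap
        refine Fin.addCases (fun o => ?_) (fun o => ?_) o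
        · rw [Fin.addCases_left, Fin.append_left, Fin.append_left]
        · rw [Fin.addCases_right, Fin.append_right, Fin.append_right, Fin.cons_succ]
    have h2 := goodT_cons (h3 γ) h4
    have h5 : z = (Fin.cons (z 0) (fun j : Fin n => z j.succ) : Fin (n + 1) → ℂ) :=
      (Fin.cons_self_tail z).symm
    rw [h5]
    exact h2

end Pool.Agent.Zk44.DT
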